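import Pool.Agent.W960.HC.Defs
import Pool.Agent.GR.Flow

/-! Existence of the smooth flow with accumulator. -/

open Set Topology Filter MeasureTheory

namespace Pool.Agent.W270.HC

open Pool.Agent.W960.HC

theorem contDiff_fld (a c : ℝ) :
    ContDiff ℝ 2 (fun q : (ℝ × ℝ) × ℝ => fld a c q.2 q.1) := by
  unfold fld
  fun_prop

theorem contDiff_G (a c : ℝ) : ContDiff ℝ 2 (fun q : (ℝ × ℝ) × ℝ => G a c q.1) := by
  unfold G
  fun_prop

/-- the truncated field as a function of the point and the parameter -/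
noncomputable def V0 (a c : ℝ) (b : ContDiffBump (0 : (ℝ × ℝ) × ℝ)) (q : (ℝ × ℝ) × ℝ) :
    (ℝ × ℝ) × (ℝ × ℝ) := (b q • fld a c q.2 q.1, ((0 : ℝ), b q * G a c q.1))

/-- the truncated field -/
noncomputable def V1 (a c : ℝ) (b : ContDiffBump (0 : (ℝ × ℝ) × ℝ))
    (q : (ℝ × ℝ) × (ℝ × ℝ)) : (ℝ × ℝ) × (ℝ × ℝ) := V0 a c b (q.1, q.2.1)

theorem contDiff_V0 (a c : ℝ) (b : ContDiffBump (0 : (ℝ × ℝ) × ℝ)) :
    ContDiff ℝ 2 (V0 a c b) := by
  unfold V0
  have hb : ContDiff ℝ 2 (fun q : (ℝ × ℝ) × ℝ => b q) := b.contDiff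
  exact (hb.smul (contDiff_fld a c)).prodMk (contDiff_const.prodMk (hb.mul (contDiff_G a c)))

theorem supp_V0 (a c : ℝ) (b : ContDiffBump (0 : (ℝ × ℝ) × ℝ)) :
    HasCompactSupport (V0 a c b) := by
  refine b.hasCompactSupport.mono ?_
  intro q hq
  rw [Function.mem_support] at hq ⊢
  intro h
  apply hq
  unfold V0
  rw [h]
  simp

theorem contDiff_V1 (a c : ℝ) (b : ContDiffBump (0 : (ℝ × ℝ) × ℝ)) :
    ContDiff ℝ 2 (V1 a c b) := by
  unfold V1
  exact (contDiff_V0 a c b).comp (contDiff_fst.prodMk (contDiff_fst.comp contDiff_snd))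

theorem lip_V1 (a c : ℝ) (b : ContDiffBump (0 : (ℝ × ℝ) × ℝ)) :
    ∃ K : NNReal, LipschitzWith K (V1 a c b) := by
  obtain ⟨K, hK⟩ := (contDiff_V0 a c b).lipschitzWith_of_hasCompactSupport (supp_V0 a c b)
    (by norm_num)
  have hp : LipschitzWith 1 (fun q : (ℝ × ℝ) × (ℝ × ℝ) => (q.1, q.2.1)) := by
    have h1 : LipschitzWith 1 (fun q : (ℝ × ℝ) × (ℝ × ℝ) => q.1) := LipschitzWith.prod_fst
    have h2 : LipschitzWith 1 (fun q : (ℝ × ℝ) × (ℝ × ℝ) => q.2.1) := by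
      have := (LipschitzWith.prod_fst (α := ℝ) (β := ℝ)).comp
        (LipschitzWith.prod_snd (α := ℝ × ℝ) (β := ℝ × ℝ))
      rw [one_mul] at this
      exact this
    simpa using h1.prodMk h2
  exact ⟨K * 1, hK.comp hp⟩

theorem bdd_V1 (a c : ℝ) (b : ContDiffBump (0 : (ℝ × ℝ) × ℝ)) :
    ∃ M : NNReal, ∀ q, ‖V1 a c b q‖ ≤ M := by
  obtain ⟨C, hC⟩ := (supp_V0 a c b).exists_bound_of_continuous (contDiff_V0 a c b).continuous
  refine ⟨C.toNNReal, fun q => ?_⟩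
  exact (hC _).trans (Real.le_coe_toNNReal C)

theorem exists_flw (a c R : ℝ) : ∃ Z W, Flw a c R Z W := by
  have hr : 0 < max R 1 := lt_of_lt_of_le one_pos (le_max_right _ _)
  let b : ContDiffBump (0 : (ℝ × ℝ) × ℝ) := ⟨max R 1, max R 1 + 1, hr, lt_add_one _⟩
  obtain ⟨K, hK⟩ := lip_V1 a c b
  obtain ⟨M, hM⟩ := bdd_V1 a c b
  have hF := contDiff_V1 a c b
  choose u hu0 hu using fun x => GR.Flow.exists_solution (X := V1 a c b) hK hM x
  have hflow : GR.Flow.IsFlowOf (V1 a c b) (fun t x => u x t) := ⟨fun x => hu0 x, fun x t => hu x t⟩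
  have hsm : ContDiff ℝ 2 (fun p : ℝ × ((ℝ × ℝ) × (ℝ × ℝ)) => u p.2 p.1) := by
    have := GR.Flow.contDiff_flow (X := ⟨V1 a c b, hF.continuous⟩) (m := 2) (by norm_num)
      (by simpa using hF) (K := K) hK (g := fun t x => u x t) hflow
    simpa using this
  -- the parameter is constant
  have hpar : ∀ x t, (u x t).2.1 = x.2.1 := by
    intro x t
    have h1 : ∀ t, HasDerivAt (fun t => (u x t).2.1) 0 t := fun t => by
      have := ((ContinuousLinearMap.fst ℝ ℝ ℝ).comp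
        (ContinuousLinearMap.snd ℝ (ℝ × ℝ) (ℝ × ℝ))).hasFDerivAt.comp_hasDerivAt t (hu x t)
      exact this
    have h2 := is_const_of_deriv_eq_zero (fun t => (h1 t).differentiableAt)
      (fun t => (h1 t).deriv) t 0
    simp only [hu0] at h2
    exact h2
  -- translation of the accumulator
  have htr : ∀ (z : ℝ × ℝ) (ε w t : ℝ), (u (z, (ε, w)) t).1 = (u (z, (ε, 0)) t).1 := by
    intro z ε w t
    have h1 : (fun t => u (z, (ε, w)) t - ((0, 0), (0, w))) = u (z, (ε, 0)) := by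
      refine ODE_solution_unique_univ (v := fun _ => V1 a c b) (s := fun _ => univ)
        (K := K) (t₀ := 0)
        (fun t => hK.lipschitzOnWith) (fun t => ⟨?_, trivial⟩) (fun t => ⟨hu _ t, trivial⟩) ?_
      · have h2 := (hu (z, (ε, w)) t).sub_const ((0, 0), (0, w))
        have h3 : V1 a c b (u (z, (ε, w)) t - ((0, 0), (0, w))) = V1 a c b (u (z, (ε, w)) t) := by
          unfold V1
          congr 1
          simp
        rw [h3]
        exact h2
      · simp [hu0]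
    have h2 := congrFun h1 t
    rw [← h2]
    exact (sub_zero ((u (z, (ε, w)) t).1)).symm
  have hcomp : ContDiff ℝ 2 (fun q : ℝ × (ℝ × ℝ) × ℝ => u (q.2.1, (q.2.2, 0)) q.1) := by
    have hι : ContDiff ℝ 2 (fun q : ℝ × (ℝ × ℝ) × ℝ => (q.1, (q.2.1, (q.2.2, (0 : ℝ))))) := by
      fun_prop
    exact hsm.comp hι
  have hone : ∀ p ε t, ‖(u (p, (ε, 0)) t).1‖ < R → |ε| < 1 →
      b ((u (p, (ε, 0)) t).1, (u (p, (ε, 0)) t).2.1) = 1 := by
    intro p ε t h1 h2
    apply b.one_of_mem_closedBall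
    rw [mem_closedBall_zero_iff, Prod.norm_def, hpar]
    refine max_le ?_ ?_
    · exact h1.le.trans (le_max_left _ _)
    · exact h2.le.trans (le_max_right _ _)
  refine ⟨fun t p ε => (u (p, (ε, 0)) t).1, fun t p ε => (u (p, (ε, 0)) t).2.2,
    ⟨?_, ?_, ?_, ?_, ?_, ?_, ?_⟩⟩
  · exact contDiff_fst.comp hcomp
  · exact contDiff_snd.comp (contDiff_snd.comp hcomp)
  · intro p ε
    simp [hu0]
  · intro p ε
    simp [hu0]
  · intro t s p ε
    have h1 : u (p, (ε, 0)) (t + s) = u (u (p, (ε, 0)) s) t := hflow.add hK t s (p, (ε, 0))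
    show (u (p, (ε, 0)) (t + s)).1 = (u ((u (p, (ε, 0)) s).1, (ε, 0)) t).1
    rw [h1]
    have h2 : u (p, (ε, 0)) s = ((u (p, (ε, 0)) s).1, (ε, (u (p, (ε, 0)) s).2.2)) := by
      have := hpar (p, (ε, 0)) s
      simp only at this
      ext <;> simp [this]
    have h3 := htr (u (p, (ε, 0)) s).1 ε (u (p, (ε, 0)) s).2.2 t
    rw [← h2] at h3
    exact h3
  · intro p ε t h1 h2
    have h3 := (ContinuousLinearMap.fst ℝ (ℝ × ℝ) (ℝ × ℝ)).hasFDerivAt.comp_hasDerivAt t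
      (hu (p, (ε, 0)) t)
    have h4 : (ContinuousLinearMap.fst ℝ (ℝ × ℝ) (ℝ × ℝ)) (V1 a c b (u (p, (ε, 0)) t)) =
        fld a c ε (u (p, (ε, 0)) t).1 := by
      have h5 := hone p ε t h1 h2
      simp only [V1, V0, ContinuousLinearMap.coe_fst']
      rw [h5, one_smul, hpar]
    rw [h4] at h3
    exact h3
  · intro p ε t h1 h2
    have h3 := ((ContinuousLinearMap.snd ℝ ℝ ℝ).comp
      (ContinuousLinearMap.snd ℝ (ℝ × ℝ) (ℝ × ℝ))).hasFDerivAt.comp_hasDerivAt t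
      (hu (p, (ε, 0)) t)
    have h4 : ((ContinuousLinearMap.snd ℝ ℝ ℝ).comp
        (ContinuousLinearMap.snd ℝ (ℝ × ℝ) (ℝ × ℝ))) (V1 a c b (u (p, (ε, 0)) t)) =
        G a c (u (p, (ε, 0)) t).1 := by
      have h5 := hone p ε t h1 h2
      simp only [V1, V0, ContinuousLinearMap.coe_comp, Function.comp,
        ContinuousLinearMap.coe_snd']
      rw [h5, one_mul]
    rw [h4] at h3
    exact h3


end Pool.Agent.W270.HC
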